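import Pool.Agent.helper70.BND.SpecH

/-!
# Project bnd (MP_376aaf_an), block H, row BP1: paths of degree zero for commutations, rank one
-/

set_option autoImplicit false

open scoped Topology
open Finset

namespace Pool.Agent.BND.EX

theorem BP1_ct (l : Lv) (J : ℕ) (M : ℕ → ℕ → ℕ) (a b : ℕ) :
    ct l J M [a, b] = co l J (M a) ++ ((0 :: 0 :: D0 l J) ++ co l J (M b)) := by
  simp [ct]

theorem BP1_kp (M : ℕ → ℕ → ℕ) (a b v : ℕ) : kp M [a, b] v = M a v + M b v := by
  simp [kp]

theorem BP1_perm (X Y Z : List ℕ) : (X ++ (Z ++ Y)).Perm (Y ++ (Z ++ X)) := by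
  rw [List.perm_iff_count]
  intro a
  simp only [List.count_append]
  omega

theorem BP1 (hPH1 : PH1_stmt) (hFCM : FCM_stmt) (hKIL : KIL_stmt) (hNPR : NPR_stmt) (hVWC : VWC_stmt) (hPTR : PTR_stmt) (hPSY : PSY_stmt) (hPRF : PRF_stmt) : BP1_stmt := by
  intro A J M a b Bb N hG hJ hM hB hN
  have ha : ∀ v, v < A.n → 3 * A.cs + (D0 A.l J).length + 4 ≤ M a v := hM a (by simp)
  have hb : ∀ v, v < A.n → 3 * A.cs + (D0 A.l J).length + 4 ≤ M b v := hM b (by simp)
  have hM3 : ∀ x ∈ [a, b], ∀ v, v < A.n → (D0 A.l J).length + 3 ≤ M x v := by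
    intro x hx v hv
    have := hM x hx v hv
    omega
  have hM3' : ∀ x ∈ [b, a], ∀ v, v < A.n → (D0 A.l J).length + 3 ≤ M x v := by
    intro x hx v hv
    exact hM3 x (by simpa [or_comm] using hx) v hv
  obtain ⟨-, hV⟩ := hVWC A J hG
  obtain ⟨-, hVct, hVx, hVu⟩ := hV M
  obtain ⟨hfc, hne⟩ := hVu [a, b] (by simp) hM3
  have hX₀n : ∀ x ∈ ct A.l J M [a, b], x < A.n := hVct [a, b]
  obtain ⟨-, hca, -⟩ := hVx a (hM3 a (by simp))
  obtain ⟨-, hcb, -⟩ := hVx b (hM3 b (by simp))
  -- the four paths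
  have h1 := hPH1 A J M [a, b] (kp M [a, b]) (kp M [b, a]) (2 * A.cs) Bb hG hJ (by simp) hM3
    (Or.inl fun v _ => rfl) (by simp only [List.length_cons, List.length_nil]; omega)
  have h4 := hPH1 A J M [b, a] (kp M [a, b]) (kp M [b, a]) (2 * A.cs) Bb hG hJ (by simp) hM3'
    (Or.inr fun v _ => rfl) (by simp only [List.length_cons, List.length_nil]; omega)
  have h2 := hKIL A J (kp M [a, b]) (kp M [b, a]) (2 * A.cs) Bb (ct A.l J M [a, b])
    (fun i => -(M a i : ℤ)) (fun i => (M b i : ℤ)) (fun i r => -N i r) hG hX₀n hne (by omega) (by omega)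
    hfc (by
      intro v hv
      have e1 := hca v hv
      have e2 := ha v hv
      have e3 : (0 :: 0 :: D0 A.l J).count v ≤ (D0 A.l J).length + 2 :=
        le_trans List.count_le_length (by simp)
      rw [BP1_ct, List.count_append, List.count_append]
      omega)
    (by
      intro i j hi hj
      have := hN i j hi hj
      have e : (∑ r ∈ range A.k, (-N i r * A.c r j - -N j r * A.c r i)) =
          -∑ r ∈ range A.k, (N i r * A.c r j - N j r * A.c r i) := by
        rw [← Finset.sum_neg_distrib]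
        exact Finset.sum_congr rfl fun r _ => by ring
      rw [e, ← this]
      ring)
  have h3 := hFCM A J (kp M [a, b]) (kp M [b, a]) (2 * A.cs) Bb (ct A.l J M [a, b]) (ct A.l J M [b, a])
    hG hX₀n hne (by omega)
    ⟨0, by simp [U], fun v hv => by
      have e := hfc v hv
      show |((fc A.l J (ct A.l J M [a, b]) v : ℤ) : ℝ) - ((1 - 0) * (kp M [a, b] v : ℝ) + 0 * (kp M [b, a] v : ℝ))| ≤
        ((2 * A.cs : ℕ) : ℝ)
      rw [e]
      simp⟩
    (by
      rw [BP1_ct, BP1_ct]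
      exact BP1_perm _ _ _)
  have h4' := hPSY _ _ _ _ _ _ h4
  have h := hPTR _ _ _ _ _ _ _ _ _ (hPTR _ _ _ _ _ _ _ _ _ (hPTR _ _ _ _ _ _ _ _ _ h1 h2) h3) h4'
  refine (hPRF A.l _).2 _ _ _ _ _ _ h ?_ ?_
  · intro e he
    have hn : 0 < A.n := hG.n0
    show 0 + dW A.n _ _ e + dI A.n _ _ e + -0 = 0
    unfold dW dI
    by_cases hc : A.n ≤ e ∧ e < A.n + A.n * A.n ∧ (e - A.n) / A.n < (e - A.n) % A.n
    · rw [if_pos hc, if_pos hc]
      have hj : (e - A.n) % A.n < A.n := Nat.mod_lt _ hn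
      have hi : (e - A.n) / A.n < A.n := lt_trans hc.2.2 hj
      generalize (e - A.n) % A.n = j at *
      generalize (e - A.n) / A.n = i at *
      rw [BP1_ct, BP1_ct, (hNPR i j).2.2.1]
      have e1 := hca i hi
      have e2 := hca j hj
      have e3 := hcb i hi
      have e4 := hcb j hj
      have f1 : ((co A.l J (M a)).count i : ℤ) + (0 :: 0 :: D0 A.l J).count i = M a i := by exact_mod_cast e1
      have f2 : ((co A.l J (M a)).count j : ℤ) + (0 :: 0 :: D0 A.l J).count j = M a j := by exact_mod_cast e2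
      have f3 : ((co A.l J (M b)).count i : ℤ) + (0 :: 0 :: D0 A.l J).count i = M b i := by exact_mod_cast e3
      have f4 : ((co A.l J (M b)).count j : ℤ) + (0 :: 0 :: D0 A.l J).count j = M b j := by exact_mod_cast e4
      rw [f1, f2, f3, f4]
      ring
    · rw [if_neg hc, if_neg hc]
      simp
  · rintro c ⟨hc1, hc2⟩
    left
    left
    left
    exact ⟨by simp, hc1, hc2⟩

end Pool.Agent.BND.EX
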